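import Pool.Agent.R590.HzMain

/-!
# MP_01be47_gt: the `σ`-ideals `σ𝒢₀` and `σ𝒟₀` on the Hilbert cube are different

The proof: let `Z` be the set of the points of the cube without a coordinate in `ℚ ∩ (0, 1)`. Given
countably many minimal dense `G_δ`-sets, a fusion over finite sets of partitions between opposite faces
of the cube yields a point `x` and a nonempty perfect set `E` of reals such that for every `t ∈ E` the
point with the coordinates `(x i) ^ exp (-t)` is outside all the given sets; for all but countably
many `t` this point is in `Z`.
-/

set_option autoImplicit false

namespace Pool.Agent.Results.MP_01be47_gt.ZeroDimensionalNotCovered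

open Pool.Agent.R590.Hc

/-- 1. Some zero-dimensional dense `G_δ`-subset of the Hilbert cube is not contained in the union of
countably many minimal dense `G_δ`-sets. 2. So the `σ`-ideal generated by the minimal dense `G_δ`-sets
differs from the `σ`-ideal generated by the zero-dimensional subspaces. -/
theorem result :
    (∃ Z : Set Q, IsGδ Z ∧ Dense Z ∧ ZeroDim Z ∧ ¬ SigmaG Z) ∧
    {X : Set Q | SigmaG X} ≠ {X : Set Q | SigmaD X} :=
  main_zeroDim

end Pool.Agent.Results.MP_01be47_gt.ZeroDimensionalNotCovered
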